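import Mathlib

set_option autoImplicit false

namespace Pool.Agent.Results.MP_c74d57_an.Counter

open Filter Topology Finset Polynomial
open PowerSeries hiding C X coeff

/-- Causal matrix sequences. -/
abbrev Seq (p q : ℕ) := ℕ → Matrix (Fin p) (Fin q) ℝ

variable {p q r s : ℕ}

/-- Membership in `ℓ₁`. -/
def L1 (X : Seq p q) : Prop := ∀ i j, Summable fun k => |X k i j|

/-- Convolution product. -/
def conv (X : Seq p q) (Y : Seq q r) : Seq p r := fun k => ∑ t ∈ range (k + 1), X t * Y (k - t)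

/-- The induced norm. -/
noncomputable def nrm (X : Seq p q) : ℝ := ⨆ i, ∑ j, ∑' k, |X k i j|

/-- The transform, as a matrix of formal power series. -/
def hat (X : Seq p q) : Matrix (Fin p) (Fin q) ℝ⟦X⟧ := fun i j => mk fun k => X k i j

/-- Every entry of the transform is a quotient of polynomials. -/
def IsRat (X : Seq p q) : Prop := ∀ i j, ∃ a b : ℝ[X], b ≠ 0 ∧ (b : ℝ⟦X⟧) * hat X i j = a

/-- Normal rank. -/
noncomputable def nrank (X : Seq p q) : ℕ :=
  ((hat X).map (algebraMap ℝ⟦X⟧ (FractionRing ℝ⟦X⟧))).rank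

/-- `Q` is an optimal solution. -/
def Opt (H : Seq p q) (U : Seq p r) (V : Seq s q) (Q : Seq r s) : Prop :=
  L1 Q ∧ ∀ Q', L1 Q' → nrm (H - conv (conv U Q) V) ≤ nrm (H - conv (conv U Q') V)

theorem kink {d : ℕ} {c : ℕ → ℝ}
    (h : ∀ᶠ n : ℕ in atTop, ∑ i ∈ range d, c i * |Real.cos (n - i)| = 0) :
    ∀ i ∈ range d, c i = 0 := by
  have : Fact (0 < 2 * Real.pi) := ⟨Real.two_pi_pos⟩
  let g : Real.Angle → ℝ := fun t =>
    ∑ i ∈ range d, c i * |Real.Angle.cos (t - ((i : ℝ) : Real.Angle))|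
  have gc : Continuous g := continuous_finsetSum _ fun i _ => continuous_const.mul
    (Real.Angle.continuous_cos.comp (continuous_sub_right _)).abs
  have e : ∀ t : ℝ, g t = ∑ i ∈ range d, c i * |Real.cos (t - i)| := fun t => rfl
  have z : ∀ t : ℝ, ∑ i ∈ range d, c i * |Real.cos (t - i)| = 0 := fun t => by
    have a : MapClusterPt (t : AddCircle (2 * Real.pi)) atTop
        (· • ((1 : ℝ) : AddCircle (2 * Real.pi)) : ℕ → _) :=
      mapClusterPt_atTop_nsmul_iff_mem_topologicalClosure_zmultiples.mpr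
        (AddCircle.denseRange_zsmul_coe_iff.mpr (by
          simpa using (irrational_pi.natCast_mul two_ne_zero).inv) _)
    exact (isClosed_eq gc continuous_const).mem_of_mapClusterPt a (h.mono fun n b => by
      show g (n • ((1 : ℝ) : Real.Angle)) = 0
      rw [← Real.Angle.coe_nsmul, e, nsmul_one, b])
  intro i m
  by_contra c0
  have D : DifferentiableAt ℝ (fun t => |Real.cos (t - i)|) (i + Real.pi / 2) := by
    have : (fun t => |Real.cos (t - i)|) =
        fun t => -(∑ j ∈ (range d).erase i, c j * |Real.cos (t - j)|) / c i := funext fun t => by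
      rw [eq_div_iff c0]
      linarith [(add_sum_erase _ (fun j => c j * |Real.cos (t - j)|) m).trans (z t)]
    rw [this]
    refine (DifferentiableAt.fun_sum fun j n => ((by fun_prop : DifferentiableAt ℝ
      (fun t : ℝ => Real.cos (t - (j : ℕ))) (i + Real.pi / 2)).abs fun b => ?_).const_mul
      _).fun_neg.div_const _
    obtain ⟨k, b⟩ := Real.cos_eq_zero_iff.mp b
    by_cases k0 : k = 0
    · exact ne_of_mem_erase n (Nat.cast_injective (R := ℝ) (by simp [k0] at b; linarith))
    · exact (irrational_pi.intCast_mul k0).ne_int (i - j) (by push_cast; linarith)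
  have E : HasDerivAt (fun t : ℝ => Real.cos (t - i)) (-1) (i + Real.pi / 2) := by
    simpa using ((hasDerivAt_id (i + Real.pi / 2)).sub_const (i : ℝ)).cos
  have a := IsLocalMin.hasDerivAt_eq_zero (.of_forall fun t => by
    simpa using neg_le_iff_add_nonneg.mp (neg_le_abs _)) (D.hasDerivAt.add E)
  have b := IsLocalMin.hasDerivAt_eq_zero (.of_forall fun t => by
    simpa using le_abs_self _) (D.hasDerivAt.sub E)
  linarith

theorem one (X : Seq p q) : conv (fun k => if k = 0 then 1 else 0) X = X := funext fun k => by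
  rw [conv, sum_eq_single 0 (fun t _ n => by rw [if_neg n, Matrix.zero_mul]) (by simp)]
  simp

theorem result : ∃ nz nw nu ny : ℕ, 1 ≤ nz ∧ 1 ≤ nw ∧ 1 ≤ nu ∧ 1 ≤ ny ∧
    ∃ (H : Seq nz nw) (U : Seq nz nu) (V : Seq ny nw), L1 H ∧ L1 U ∧ L1 V ∧
      IsRat H ∧ IsRat U ∧ IsRat V ∧ ¬(nrank U = nz ∧ nrank V = nw) ∧
      (∃ Q, Opt H U V Q) ∧ ∀ Q, Opt H U V Q → ¬IsRat Q := by
  let h : ℕ → ℝ := fun k => (1 / 2) ^ k * Real.cos k
  let H : Seq 1 3 := fun k => .of fun _ => ![h k, -h k, (1 / 2) ^ k]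
  let V : Seq 1 3 := fun k => .of fun _ _ => if k = 0 then 1 else 0
  have b : ∀ k, |h k| ≤ (1 / 2) ^ k := fun k => by
    rw [abs_mul, abs_of_pos (by positivity)]
    exact mul_le_of_le_one_right (by positivity) (Real.abs_cos_le_one _)
  have g := summable_geometric_two
  have s : Summable fun k => |h k| := g.of_nonneg_of_le (fun _ => abs_nonneg _) b
  have l : L1 H := fun i j => by fin_cases j <;> simpa [H] using by first | exact s | simpa using g
  have c : ∀ Q : Seq 1 1, L1 Q → HasSum (fun k => |h k - Q k 0 0| + |-h k - Q k 0 0| +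
      |(1 / 2) ^ k - Q k 0 0|) (nrm (H - conv (conv (fun k => if k = 0 then 1 else 0) Q) V)) := by
    intro Q a
    have e : ∀ k j, conv Q V k 0 j = Q k 0 0 := fun k j => by
      simp only [conv, Matrix.sum_apply, Matrix.mul_apply, V, Fin.sum_univ_one, Matrix.of_apply]
      rw [sum_eq_single k (fun t m n => by rw [if_neg (by have := mem_range.mp m; omega), mul_zero])
        (by simp)]
      simp
    have a := (a 0 0).of_abs
    simp only [one, nrm, ciSup_unique, Fin.sum_univ_three, Pi.sub_apply, Matrix.sub_apply,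
      Fin.default_eq_zero, e]
    exact ((s.of_abs.sub a).abs.hasSum.add (s.of_abs.neg.sub a).abs.hasSum).add
      (g.sub a).abs.hasSum
  let Q : Seq 1 1 := fun k => .of fun _ _ => |h k|
  have lq : L1 Q := fun _ _ => by simpa [Q] using s
  have k : ∀ k x, |h k - Q k 0 0| + |-h k - Q k 0 0| + |(1 / 2) ^ k - Q k 0 0| +
      |x - abs (h k)| ≤ |h k - x| + |-h k - x| + |(1 / 2) ^ k - x| := fun k x => by
    have := b k
    simp only [Q, Matrix.of_apply]
    generalize h k = y at *
    generalize (1 / 2 : ℝ) ^ k = z at *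
    grind
  have r : ∀ (x : ℕ → ℝ) (c : ℝ), (∀ n, x (n + 2) = c * x (n + 1) - 1 / 4 * x n) →
      ∃ a b : ℝ[X], b ≠ 0 ∧ (b : ℝ⟦X⟧) * mk x = a := fun x c e => by
    refine ⟨C (x 0) + C (x 1 - c * x 0) * X, 1 - C c * X + C (1 / 4) * X * X, fun z => by
      simpa using congrArg (Polynomial.coeff · 0) z, ?_⟩
    ext n
    rcases n with _ | _ | n <;>
      simp [sub_mul, add_mul, mul_assoc, coeff_succ_X_mul, e, PowerSeries.coeff_X,
        PowerSeries.coeff_C]
  have e : ∀ n, h (n + 2) = Real.cos 1 * h (n + 1) - 1 / 4 * h n := fun n => by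
    have := Real.cos_add_cos ((n : ℝ) + 1 + 1) n
    simp only [h]
    push_cast
    rw [show ((n : ℝ) + 1 + 1 + n) / 2 = n + 1 by ring, show ((n : ℝ) + 1 + 1 - n) / 2 = 1 by ring,
      add_assoc, one_add_one_eq_two] at this
    linear_combination (1 / 2) ^ (n + 2) * this
  have d : ∀ c : ℝ, Summable fun k : ℕ => |if k = 0 then c else 0| := fun c =>
    (hasSum_ite_eq 0 c).summable.abs
  have d' : ∀ c : ℝ, ∃ a b : ℝ[X], b ≠ 0 ∧ (b : ℝ⟦X⟧) * mk (fun k => if k = 0 then c else 0) = a :=
    fun c => ⟨C c, 1, one_ne_zero, by ext n; simp [PowerSeries.coeff_C]⟩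
  refine ⟨1, 3, 1, 1, le_rfl, by omega, le_rfl, le_rfl, H, fun k => if k = 0 then 1 else 0, V, l,
    fun i j => ?_, fun _ _ => d 1, fun i j => ?_, fun i j => ?_, fun _ _ => d' 1, fun a => ?_,
    ⟨Q, lq, fun Q' a => hasSum_le (fun n => ?_) (c Q lq) (c Q' a)⟩, fun Q' a w => ?_⟩
  · convert d 1 using 3
    split_ifs with z <;> simp [Matrix.one_apply, Subsingleton.elim i j, z]
  · fin_cases j
    · exact r h _ e
    · exact r (fun k => -h k) (Real.cos 1) fun n => by rw [e]; ring
    · exact r (fun k => (1 / 2) ^ k) 1 fun n => by ring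
  · convert d' 1 using 7
    refine congrArg mk (funext fun k => ?_)
    split_ifs with z <;> simp [Matrix.one_apply, Subsingleton.elim i j, z]
  · exact absurd (a.2 ▸ Matrix.rank_le_height _ : 3 ≤ 1) (by omega)
  · linarith [k n (Q' n 0 0), abs_nonneg (Q' n 0 0 - |h n|)]
  have u : ∀ n, Q' n 0 0 = |h n| := fun n => by
    by_contra z
    exact (hasSum_lt (fun n => by linarith [k n (Q' n 0 0), abs_nonneg (Q' n 0 0 - |h n|)])
      (i := n) (by linarith [k n (Q' n 0 0), abs_pos.mpr (sub_ne_zero.mpr z)]) (c Q lq) (c Q' a.1)).not_ge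
      (a.2 Q lq)
  obtain ⟨a, b, b0, w⟩ := w 0 0
  refine b0 (Polynomial.ext fun i => ?_)
  by_cases i0 : b.natDegree < i
  · exact coeff_eq_zero_of_natDegree_lt i0
  refine (mul_eq_zero.mp (kink (d := b.natDegree + 1) (c := fun i => b.coeff i * 2 ^ i)
    ((eventually_gt_atTop (a.natDegree + b.natDegree)).mono fun n m => ?_) i
    (mem_range.mpr (by omega)))).resolve_right (by positivity)
  have := congrArg (PowerSeries.coeff n) w
  rw [PowerSeries.coeff_mul, Nat.sum_antidiagonal_eq_sum_range_succ_mk, Polynomial.coeff_coe,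
    coeff_eq_zero_of_natDegree_lt (by omega), ← sum_subset (range_mono (show b.natDegree + 1 ≤ _ by
      omega)) fun j _ c => by simp [coeff_eq_zero_of_natDegree_lt (by simpa using c)]] at this
  rw [← mul_zero ((2 : ℝ) ^ n), ← this, mul_sum]
  refine sum_congr rfl fun j c => ?_
  obtain ⟨t, rfl⟩ := Nat.exists_eq_add_of_le (show j ≤ n by have := mem_range.mp c; omega)
  simp [hat, u, h, abs_mul, pow_add]
  field_simp

end Pool.Agent.Results.MP_c74d57_an.Counter
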